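import Pool.Agent.Work.MP_9f8812_co.SC5
import Pool.Agent.Work.MP_9f8812_co.SCD
import Pool.Agent.Work.MP_a8f287_co.Frozen

set_option autoImplicit false

namespace Pool.Agent.Results.MP_9f8812_co.SmallestCounterexample

open Pool.Agent.Work.MP_9f8812_co Pool.Agent.WW Submodule Module

/-- Let `v : ι → GF(2)^n` be a finite family of nonzero vectors (a coordinatization of a
loopless binary matroid `M` on `ι`) without a minor isomorphic to `M(K5)`.  If `P(M; 5) ≤ 0`, then
there are disjoint sets `T`, `Y` of elements such that the minor `N = (M | (T ∪ Y)) / Y` is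
loopless and simple, `P(N; 5) ≤ 0`, every cocircuit of `N` has at least six elements, and `N` has
corank at least `8`. -/
theorem result (n : ℕ) (ι : Type) [Fintype ι] [DecidableEq ι] (v : ι → (Fin n → ZMod 2))
    (h0 : ∀ i, v i ≠ 0) (hfree : ¬ K5Minor v) (hle : chp v Finset.univ ∅ ≤ 0) :
    ∃ T Y : Finset ι, Disjoint T Y ∧
      (∀ e ∈ T, v e ∉ Submodule.span (ZMod 2) (v '' (Y : Set ι))) ∧
      (∀ e ∈ T, ∀ e' ∈ T, e' ≠ e →
        v e + v e' ∉ Submodule.span (ZMod 2) (v '' (Y : Set ι))) ∧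
      chp v T Y ≤ 0 ∧
      (∀ f : (Fin n → ZMod 2) →ₗ[ZMod 2] ZMod 2, (∀ y ∈ Y, f (v y) = 0) →
        (∃ e ∈ T, f (v e) ≠ 0) → 6 ≤ (T.filter (fun e => f (v e) ≠ 0)).card) ∧
      rk v (T ∪ Y) + 8 ≤ T.card + rk v Y := by
  classical
  have hK : ¬ HasK5 (Set.range v) := by
    intro hK
    obtain ⟨C, h, hC, hinj, hmem, hF⟩ := frozen_of_hasK5 (Set.range v) hK
    choose g hg using fun e => (hmem e).1
    have hC' : v '' (v ⁻¹' C) = C := Set.image_preimage_eq_of_subset hC
    refine hfree ⟨v ⁻¹' C, g, ?_, ?_, ?_⟩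
    · intro a b hab
      apply hinj
      rw [← hg a, ← hg b, hab]
    · intro e he
      exact (hmem e).2 (by rw [← hg e]; exact he)
    · intro F
      rw [← hF F, hC']
      simp only [hg]
  have hPle : P v Finset.univ ⊥ ≤ 0 := by
    have h := P_eq (v := v) Finset.univ ∅
    rw [Finset.coe_empty, Set.image_empty, span_empty] at h
    rw [h]
    exact mul_nonpos_of_nonneg_of_nonpos (by positivity) hle
  obtain ⟨T, Y, hTY, hl, hs, hPT, hco, hcor⟩ := smallest hK Finset.univ (fun e _ => h0 e) hPle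
  refine ⟨T, Y, hTY, hl, hs, ?_, ?_, ?_⟩
  · rw [P_eq] at hPT
    by_contra hno
    push Not at hno
    exact absurd (mul_pos (by positivity) hno) (not_lt.2 hPT)
  · intro f hf he
    refine hco f (span_le.2 ?_) he
    rintro _ ⟨y, hy, rfl⟩
    exact hf y hy
  · unfold Cor D at hcor
    rw [span_union_eq] at hcor
    unfold rk
    omega

end Pool.Agent.Results.MP_9f8812_co.SmallestCounterexample
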